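import Pool.Agent.H32.LP.Pow

/-!
# Almost primes `m` with `m ^ d + k` almost prime, both with a large prime factor

Let `(d, k)` be admissible. For all large `r` and `X` let `Rough d k r X` be the set of the `m` in `(X, 2 X]` for which
`m (m ^ d + k)` has no prime factor up to `X ^ (1 / r)`. It has at least `c X / log ^ 2 X` elements, and for these `m` has at
most `r` and `m ^ d + k` at most `d r` prime factors. A positive proportion of these `m` is such that `m` has a prime factor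
larger than `X ^ θ₁` and, simultaneously, `m ^ d + k` has a prime factor larger than `X ^ θ₂`, if `θ₁ + θ₂ / d < 1`,
`θ₁, θ₂ < 1`: for instance `θ₂ = 1 - ε` and `θ₁ = 1 - 1 / d`.

Proof: the moments of order `j` of the logarithms of the prime factors up to `X ^ θ`, `j θ < 1`, over the sifted set, from
the fundamental lemma of the sieve in progressions modulo products of `j` primes and the prime ideal theorem.
-/

set_option autoImplicit false

namespace Pool.Agent.Results.MP_dff12b_nt.LargePrimeFactors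

open Filter Finset Polynomial
open Pool.Agent.H32.LP Pool.Agent.W123.RU.Poly

/-- The `m` in `(X, 2 X]` such that no prime `p ≤ X ^ (1 / r)` divides `m (m ^ d + k)`. -/
def Rough (d : ℕ) (k : ℤ) (r X : ℕ) : Set ℕ :=
  {m | X < m ∧ m ≤ 2 * X ∧
    ∀ p : ℕ, p.Prime → (p : ℝ) ≤ (X : ℝ) ^ (1 / (r : ℝ)) → ¬ (p : ℤ) ∣ (m : ℤ) * ((m : ℤ) ^ d + k)}

/-- The product of the `θ / (d - t θ)` for `0 ≤ t < j`; it is `θ / d` for `j = 1`. -/
noncomputable def bound (d : ℕ) (θ : ℝ) (j : ℕ) : ℝ := ∏ t ∈ range j, θ / (d - t * θ)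

/-- the two polynomials -/
noncomputable def pol (d : ℕ) (k : ℤ) : Bool → ℤ[X]
  | false => X
  | true => pw d k

lemma sys (d : ℕ) (hd : Odd d) (hd1 : 1 < d) (k : ℤ) (hk2 : Even k)
    (hk : ∀ e : ℕ, e ∣ d → 1 < e → ∀ a : ℤ, k ≠ a ^ e) : Sys (pol d k) where
  irr i := by
    cases i
    · exact irreducible_X
    · exact pw_irr d hd k hk
  deg i := by
    cases i
    · simp [pol]
    · simp only [pol]
      rw [pw_deg d k hd.pos]
      exact hd.pos
  lead i := by
    cases i
    · simp [pol]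
    · exact pw_lead d k hd.pos
  inj := by
    intro i i' h
    have h1 := congrArg natDegree h
    cases i <;> cases i'
    · rfl
    · simp only [pol] at h1
      rw [natDegree_X, pw_deg d k hd.pos] at h1
      omega
    · simp only [pol] at h1
      rw [natDegree_X, pw_deg d k hd.pos] at h1
      omega
    · rfl
  adm p hp := by
    have hp1 : ¬ (p : ℤ) ∣ 1 := by
      intro h
      have h3 : p ∣ 1 := by exact_mod_cast h
      exact hp.one_lt.ne' (Nat.dvd_one.1 h3)
    by_cases h : (p : ℤ) ∣ 1 + k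
    · refine ⟨p - 1, fun i hi => ?_⟩
      have hc : (((p - 1 : ℕ)) : ℤ) = p - 1 := by
        rw [Nat.cast_sub hp.one_lt.le]
        simp
      cases i
      · simp only [pol, eval_X] at hi
        rw [hc] at hi
        apply hp1
        have := dvd_sub (dvd_refl (p : ℤ)) hi
        simpa using this
      · simp only [pol] at hi
        rw [pw_eval, hc] at hi
        have h1 : (p : ℤ) ∣ ((p : ℤ) - 1) ^ d - (-1) ^ d := by
          refine dvd_trans ?_ (sub_dvd_pow_sub_pow _ _ d)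
          simp
        rw [hd.neg_one_pow] at h1
        have h2 := dvd_sub hi h1
        have h3 : (p : ℤ) ∣ 2 := by
          have h4 := dvd_sub h h2
          have e : 1 + k - (((p : ℤ) - 1) ^ d + k - (((p : ℤ) - 1) ^ d - -1)) = 2 := by ring
          rwa [e] at h4
        have h4 : p ∣ 2 := by exact_mod_cast h3
        have h5 := (Nat.prime_dvd_prime_iff_eq hp Nat.prime_two).1 h4
        rw [h5] at h
        obtain ⟨a, ha⟩ := hk2
        rw [ha] at h
        push_cast at h
        omega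
    · refine ⟨1, fun i hi => ?_⟩
      cases i
      · simp only [pol, eval_X, Nat.cast_one] at hi
        exact hp1 hi
      · simp only [pol] at hi
        rw [pw_eval, Nat.cast_one, one_pow] at hi
        exact h hi

lemma rough_eq (d : ℕ) (k : ℤ) (r X : ℕ) : Rough d k r X = RoughG (pol d k) r X := by
  ext m
  unfold Rough RoughG
  rw [Set.mem_ofPred_eq, Set.mem_ofPred_eq]
  refine and_congr_right fun _ => and_congr_right fun _ => ?_
  constructor
  · intro h i p hp hpX hd
    apply h p hp hpX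
    cases i
    · simp only [pol, eval_X] at hd
      exact dvd_mul_of_dvd_left hd _
    · simp only [pol, pw_eval] at hd
      exact dvd_mul_of_dvd_right hd _
  · intro h p hp hpX hd
    rcases (Nat.prime_iff_prime_int.1 hp).dvd_or_dvd hd with h1 | h1
    · exact h false p hp hpX (by simpa only [pol, eval_X] using h1)
    · exact h true p hp hpX (by simpa only [pol, pw_eval] using h1)

/-- **Almost primes `m` with `m ^ d + k` almost prime, both with a large prime factor.** -/
theorem result (d : ℕ) (hd : Odd d) (hd1 : 1 < d) (k : ℤ) (hk2 : Even k)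
    (hk : ∀ e : ℕ, e ∣ d → 1 < e → ∀ a : ℤ, k ≠ a ^ e)
    (θ₁ θ₂ : ℝ) (j₁ j₂ : ℕ) (h₁ : 0 < θ₁) (h₂ : 0 < θ₂) (hj₁ : 1 ≤ j₁) (hj₂ : 1 ≤ j₂)
    (hθ₁ : j₁ * θ₁ < 1) (hθ₂ : j₂ * θ₂ < 1) (κ : ℝ) (hκ : κ < 1 - bound 1 θ₁ j₁ - bound d θ₂ j₂) :
    ∃ r₀ : ℕ, 1 ≤ r₀ ∧ ∀ r : ℕ, r₀ ≤ r → ∃ c : ℝ, 0 < c ∧ ∀ᶠ X : ℕ in atTop,
      c * X / Real.log X ^ 2 ≤ ((Rough d k r X).ncard : ℝ) ∧
      (∀ m ∈ Rough d k r X, m.primeFactorsList.length ≤ r ∧
        ((m : ℤ) ^ d + k).natAbs.primeFactorsList.length ≤ d * r) ∧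
      κ * ((Rough d k r X).ncard : ℝ) ≤
        ({m | m ∈ Rough d k r X ∧ (∃ p : ℕ, p.Prime ∧ p ∣ m ∧ (X : ℝ) ^ θ₁ < (p : ℝ)) ∧
          ∃ p : ℕ, p.Prime ∧ (p : ℤ) ∣ (m : ℤ) ^ d + k ∧ (X : ℝ) ^ θ₂ < (p : ℝ)}.ncard : ℝ) := by
  classical
  obtain ⟨r₀, hr₀, h⟩ := gen (pol d k) (sys d hd hd1 k hk2 hk) (fun i => if i then θ₂ else θ₁)
    (fun i => if i then j₂ else j₁)
    (by intro i; cases i <;> simp [h₁, h₂, hj₁, hj₂, hθ₁, hθ₂]) κ (by
      refine lt_of_lt_of_le hκ (le_of_eq ?_)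
      rw [Fintype.sum_bool]
      simp only [pol, if_true, Bool.false_eq_true, if_false]
      rw [pw_deg d k hd.pos, natDegree_X]
      simp only [beta, bound]
      ring)
  refine ⟨r₀, hr₀, fun r hr => ?_⟩
  obtain ⟨b, hb, hX⟩ := h r hr
  refine ⟨b, hb, ?_⟩
  filter_upwards [hX] with X hX
  obtain ⟨h1, h2, h3⟩ := hX
  rw [Fintype.card_bool] at h1
  refine ⟨?_, ?_, ?_⟩
  · rw [rough_eq]
    exact h1
  · intro m hm
    rw [rough_eq] at hm
    have h4 := h2 m hm false
    have h5 := h2 m hm true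
    simp only [pol] at h4 h5
    rw [eval_X, natDegree_X, one_mul, Int.natAbs_natCast] at h4
    rw [pw_eval, pw_deg d k hd.pos] at h5
    exact ⟨h4, h5⟩
  · have e : {m | m ∈ Rough d k r X ∧ (∃ p : ℕ, p.Prime ∧ p ∣ m ∧ (X : ℝ) ^ θ₁ < (p : ℝ)) ∧
          ∃ p : ℕ, p.Prime ∧ (p : ℤ) ∣ (m : ℤ) ^ d + k ∧ (X : ℝ) ^ θ₂ < (p : ℝ)} =
        {m | m ∈ RoughG (pol d k) r X ∧ ∀ i, ∃ p : ℕ, p.Prime ∧
          (p : ℤ) ∣ (pol d k i).eval (m : ℤ) ∧ (X : ℝ) ^ (if i then θ₂ else θ₁) < (p : ℝ)} := by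
      ext m
      rw [Set.mem_ofPred_eq, Set.mem_ofPred_eq, rough_eq]
      refine and_congr_right fun _ => ?_
      constructor
      · rintro ⟨⟨p, hp, hpd, hpX⟩, q, hq, hqd, hqX⟩ i
        cases i
        · refine ⟨p, hp, ?_, by simpa using hpX⟩
          simp only [pol, eval_X]
          exact_mod_cast hpd
        · refine ⟨q, hq, ?_, by simpa using hqX⟩
          simp only [pol, pw_eval]
          exact hqd
      · intro g
        obtain ⟨p, hp, hpd, hpX⟩ := g false
        obtain ⟨q, hq, hqd, hqX⟩ := g true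
        simp only [pol, eval_X] at hpd
        simp only [pol, pw_eval] at hqd
        exact ⟨⟨p, hp, by exact_mod_cast hpd, by simpa using hpX⟩, q, hq, hqd, by simpa using hqX⟩
    rw [e, rough_eq]
    exact h3

end Pool.Agent.Results.MP_dff12b_nt.LargePrimeFactors
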